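import Mathlib

set_option autoImplicit false
set_option linter.unusedSectionVars false

namespace Pool.Agent.H43.IndepSets

open Finset

variable {V : Type*} [DecidableEq V] (G : SimpleGraph V) [DecidableRel G.Adj]

/-- degree of `v` into `U` -/
def dg (U : Finset V) (v : V) : ℕ := (U.filter (G.Adj v)).card

/-- twice the number of edges inside `U` -/
def E2 (U : Finset V) : ℕ := ∑ v ∈ U, dg G U v

/-- independence of a finset -/
def Ind (J : Finset V) : Prop := ∀ x ∈ J, ∀ y ∈ J, ¬ G.Adj x y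

/-- `k` disjoint independent `p`-sets inside `U`. -/
def Pack (p : ℕ) : ℕ → Finset V → Prop
  | 0, _ => True
  | (k + 1), U => ∃ J ⊆ U, J.card = p ∧ Ind G J ∧ Pack p k (U \ J)

variable {G}

lemma Pack.mono {p k : ℕ} {U U' : Finset V} (h : U ⊆ U') (hp : Pack G p k U) : Pack G p k U' := by
  induction k generalizing U U' with
  | zero => trivial
  | succ k ih =>
    obtain ⟨J, hJ, hc, hi, hr⟩ := hp
    exact ⟨J, hJ.trans h, hc, hi, ih (sdiff_subset_sdiff h (Subset.refl _)) hr⟩

lemma Ind.mono {J J' : Finset V} (h : J ⊆ J') (hi : Ind G J') : Ind G J :=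
  fun x hx y hy => hi x (h hx) y (h hy)

lemma dg_mono {U U' : Finset V} (h : U ⊆ U') (v : V) : dg G U v ≤ dg G U' v :=
  card_le_card (filter_subset_filter _ h)

/-- double counting of edges between two sets -/
lemma sum_dg_comm (A B : Finset V) : ∑ x ∈ A, dg G B x = ∑ z ∈ B, dg G A z := by
  unfold dg
  simp only [card_filter]
  rw [sum_comm]
  refine sum_congr rfl fun z _ => sum_congr rfl fun x _ => ?_
  simp only [G.adj_comm]

lemma sum_weight_comm (A B : Finset V) (w : V → ℤ) :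
    ∑ x ∈ A, ∑ z ∈ B.filter (G.Adj x), w z = ∑ z ∈ B, (dg G A z : ℤ) * w z := by
  unfold dg
  simp only [sum_filter, card_filter]
  rw [sum_comm]
  refine sum_congr rfl fun z _ => ?_
  push_cast
  rw [sum_mul]
  refine sum_congr rfl fun x _ => ?_
  simp only [G.adj_comm z x]
  split_ifs <;> simp

lemma dg_sdiff {U J : Finset V} (hJ : J ⊆ U) (x : V) :
    dg G U x = dg G (U \ J) x + dg G J x := by
  unfold dg
  rw [← card_union_of_disjoint, ← filter_union, sdiff_union_of_subset hJ]
  exact disjoint_filter_filter sdiff_disjoint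

lemma dg_self_ind {J : Finset V} (hi : Ind G J) {z : V} (hz : z ∈ J) : dg G J z = 0 := by
  unfold dg
  rw [card_eq_zero, filter_eq_empty_iff]
  intro x hx
  exact hi z hz x hx

/-- removing an independent set -/
lemma E2_sdiff {U J : Finset V} (hJ : J ⊆ U) (hi : Ind G J) :
    E2 G (U \ J) + 2 * ∑ z ∈ J, dg G U z = E2 G U := by
  have h1 : E2 G U = ∑ x ∈ U \ J, dg G U x + ∑ z ∈ J, dg G U z := by
    unfold E2; rw [sum_sdiff hJ]
  have h2 : ∑ x ∈ U \ J, dg G U x = E2 G (U \ J) + ∑ x ∈ U \ J, dg G J x := by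
    unfold E2
    rw [← sum_add_distrib]
    exact sum_congr rfl fun x _ => dg_sdiff hJ x
  have h3 : ∑ x ∈ U \ J, dg G J x = ∑ z ∈ J, dg G U z := by
    rw [sum_dg_comm]
    refine sum_congr rfl fun z hz => ?_
    rw [dg_sdiff hJ z, dg_self_ind hi hz, add_zero]
  omega

lemma E2_erase {U : Finset V} {v : V} (hv : v ∈ U) :
    E2 G (U.erase v) + 2 * dg G U v = E2 G U := by
  have := E2_sdiff (G := G) (U := U) (J := {v}) (by simpa using hv)
    (by intro x hx y hy; rw [mem_singleton] at hx hy; subst hx; subst hy; exact G.irrefl)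
  rw [sum_singleton, sdiff_singleton_eq_erase] at this
  exact this

/-- A Turan / Caro-Wei type lemma -/
lemma exists_ind (k : ℕ) (U : Finset V) :
    ∃ J ⊆ U, Ind G J ∧
      2 * (2 * (k : ℤ) + 1) * U.card ≤ 2 * (k + 1) * (2 * k + 1) * J.card + E2 G U := by
  induction hn : U.card using Nat.strong_induction_on generalizing U with
  | _ n ih =>
    rcases U.eq_empty_or_nonempty with h0 | hne
    · subst h0
      refine ⟨∅, Subset.refl _, fun x hx => by simp at hx, ?_⟩
      simp at hn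
      subst hn
      simp
    · obtain ⟨v, hv, hmin⟩ := exists_min_image U (dg G U) hne
      set Nv := insert v (U.filter (G.Adj v)) with hNv
      have hNvU : Nv ⊆ U := by
        intro x hx
        rw [hNv, mem_insert, mem_filter] at hx
        rcases hx with rfl | hx
        · exact hv
        · exact hx.1
      have hcN : Nv.card = dg G U v + 1 := by
        rw [hNv, card_insert_of_notMem]
        · rfl
        · simp
      have hcU' : (U \ Nv).card + (dg G U v + 1) = U.card := by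
        rw [← hcN, card_sdiff_add_card_eq_card hNvU]
      obtain ⟨J', hJ', hi', hb'⟩ := ih (U \ Nv).card (by omega) (U \ Nv) rfl
      have hvJ' : v ∉ J' := by
        intro h
        have := hJ' h
        rw [mem_sdiff] at this
        exact this.2 (mem_insert_self _ _)
      refine ⟨insert v J', ?_, ?_, ?_⟩
      · intro x hx
        rw [mem_insert] at hx
        rcases hx with rfl | hx
        · exact hv
        · exact (mem_sdiff.1 (hJ' hx)).1
      · have key : ∀ y ∈ J', ¬ G.Adj v y := by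
          intro y hy hadj
          have := mem_sdiff.1 (hJ' hy)
          exact this.2 (mem_insert_of_mem (mem_filter.2 ⟨this.1, hadj⟩))
        intro x hx y hy
        rw [mem_insert] at hx hy
        rcases hx with rfl | hx <;> rcases hy with rfl | hy
        · exact G.irrefl
        · exact key y hy
        · intro h; exact key x hx h.symm
        · exact hi' x hx y hy
      · rw [card_insert_of_notMem hvJ']
        have h1 : E2 G (U \ Nv) + ∑ x ∈ Nv, dg G U x ≤ E2 G U := by
          unfold E2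
          rw [← sum_sdiff hNvU]
          exact Nat.add_le_add_right (sum_le_sum fun x _ => dg_mono sdiff_subset x) _
        have h2 : (dg G U v + 1) * dg G U v ≤ ∑ x ∈ Nv, dg G U x := by
          rw [← hcN, ← smul_eq_mul]
          exact card_nsmul_le_sum _ _ _ fun x hx => hmin x (hNvU hx)
        have h3 : (E2 G (U \ Nv) : ℤ) + ((dg G U v : ℤ) + 1) * dg G U v ≤ E2 G U := by
          have : E2 G (U \ Nv) + (dg G U v + 1) * dg G U v ≤ E2 G U := by omega
          exact_mod_cast this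
        have h4 : (0 : ℤ) ≤ ((dg G U v : ℤ) - (2 * k + 1)) * ((dg G U v : ℤ) - 2 * k) := by
          rcases le_or_gt (dg G U v : ℤ) (2 * k) with h | h
          · apply mul_nonneg_of_nonpos_of_nonpos <;> linarith
          · apply mul_nonneg <;> linarith
        have hcU'' : ((U \ Nv).card : ℤ) + ((dg G U v : ℤ) + 1) = U.card := by exact_mod_cast hcU'
        rw [← hn, ← hcU'']
        push_cast
        nlinarith


/-- `J` is an independent `p`-subset of `U` with the largest degree sum. -/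
structure MaxInd (G : SimpleGraph V) [DecidableRel G.Adj] (p : ℕ) (U J : Finset V) : Prop where
  sub : J ⊆ U
  ind : Ind G J
  card : J.card = p
  max : ∀ J' ⊆ U, Ind G J' → J'.card = p → ∑ z ∈ J', dg G U z ≤ ∑ z ∈ J, dg G U z

lemma exists_maxInd {p : ℕ} {U J : Finset V} (hJ : J ⊆ U) (hi : Ind G J) (hc : J.card = p) :
    ∃ J', MaxInd G p U J' := by
  classical
  let S : Finset (Finset V) := (U.powerset).filter (fun J => Ind G J ∧ J.card = p)
  have hne : S.Nonempty := ⟨J, by simp [S, hJ, hi, hc]⟩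
  obtain ⟨J', hJ', hmax⟩ := exists_max_image S (fun J => ∑ z ∈ J, dg G U z) hne
  simp only [S, mem_filter, mem_powerset] at hJ'
  refine ⟨J', hJ'.1, hJ'.2.1, hJ'.2.2, ?_⟩
  intro J'' h1 h2 h3
  exact hmax J'' (by simp [S, h1, h2, h3])

section exchange

variable {p : ℕ} {U J : Finset V}

lemma swap_facts (hJ : MaxInd G p U J) {x z : V} (hx : x ∈ U) (hxJ : x ∉ J) (hz : z ∈ J)
    (h : ∀ y ∈ J, G.Adj x y → y = z) :
    insert x (J.erase z) ⊆ U ∧ Ind G (insert x (J.erase z)) ∧ (insert x (J.erase z)).card = p ∧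
    ∑ y ∈ insert x (J.erase z), dg G U y + dg G U z = ∑ y ∈ J, dg G U y + dg G U x := by
  have hxe : x ∉ J.erase z := fun h' => hxJ (mem_of_mem_erase h')
  refine ⟨?_, ?_, ?_, ?_⟩
  · intro y hy
    rw [mem_insert] at hy
    rcases hy with rfl | hy
    · exact hx
    · exact hJ.sub (mem_of_mem_erase hy)
  · have key : ∀ y ∈ J.erase z, ¬ G.Adj x y := by
      intro y hy hadj
      rw [mem_erase] at hy
      exact hy.1 (h y hy.2 hadj)
    intro a ha b hb
    rw [mem_insert] at ha hb
    rcases ha with rfl | ha <;> rcases hb with rfl | hb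
    · exact G.irrefl
    · exact key b hb
    · intro h'; exact key a ha h'.symm
    · exact hJ.ind a (mem_of_mem_erase ha) b (mem_of_mem_erase hb)
  · rw [card_insert_of_notMem hxe, card_erase_of_mem hz, hJ.card]
    have : 0 < J.card := card_pos.2 ⟨z, hz⟩
    rw [hJ.card] at this
    omega
  · rw [sum_insert hxe, ← add_sum_erase J _ hz]
    omega

lemma exch (hJ : MaxInd G p U J) {x z : V} (hx : x ∈ U) (hxJ : x ∉ J) (hz : z ∈ J)
    (h : ∀ y ∈ J, G.Adj x y → y = z) : dg G U x ≤ dg G U z := by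
  obtain ⟨h1, h2, h3, h4⟩ := swap_facts hJ hx hxJ hz h
  have := hJ.max _ h1 h2 h3
  omega

lemma exch_max (hJ : MaxInd G p U J) {x z : V} (hx : x ∈ U) (hxJ : x ∉ J) (hz : z ∈ J)
    (h : ∀ y ∈ J, G.Adj x y → y = z) (he : dg G U x = dg G U z) :
    MaxInd G p U (insert x (J.erase z)) := by
  obtain ⟨h1, h2, h3, h4⟩ := swap_facts hJ hx hxJ hz h
  refine ⟨h1, h2, h3, ?_⟩
  intro J' h5 h6 h7
  have := hJ.max _ h5 h6 h7
  omega

/-- the weight function used for charging -/
def psi (G : SimpleGraph V) [DecidableRel G.Adj] (U : Finset V) (D m : ℤ) (z : V) : ℤ :=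
  max (2 * ((dg G U z : ℤ) - m)) (D - m)

lemma charge (hJ : MaxInd G p U J) {D m : ℕ} (hD : ∀ v ∈ U, dg G U v ≤ D)
    (hm' : ∃ z ∈ J, dg G U z = m) {x : V} (hx : x ∈ U \ J) :
    2 * (dg G U x : ℤ) ≤ 2 * m + ∑ z ∈ J.filter (G.Adj x), psi G U D m z := by
  rw [mem_sdiff] at hx
  obtain ⟨hxU, hxJ⟩ := hx
  obtain ⟨z0, hz0, hz0m⟩ := hm'
  have hmD : m ≤ D := by rw [← hz0m]; exact hD z0 (hJ.sub hz0)
  have hpsi0 : ∀ z, ((D : ℤ) - m) ≤ psi G U D m z := fun z => le_max_right _ _
  have hpsi0' : ∀ z ∈ J, (0 : ℤ) ≤ psi G U D m z := by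
    intro z _
    refine le_trans ?_ (hpsi0 z)
    have : (m : ℤ) ≤ D := by exact_mod_cast hmD
    linarith
  have hdx : (dg G U x : ℤ) ≤ D := by exact_mod_cast hD x hxU
  rcases (J.filter (G.Adj x)).eq_empty_or_nonempty with h0 | ⟨z1, hz1⟩
  · -- no neighbour in J
    have : dg G U x ≤ dg G U z0 := by
      apply exch hJ hxU hxJ hz0
      intro y hy hadj
      exfalso
      have : y ∈ J.filter (G.Adj x) := mem_filter.2 ⟨hy, hadj⟩
      rw [h0] at this
      simp at this
    rw [hz0m] at this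
    rw [h0, sum_empty]
    have : (dg G U x : ℤ) ≤ m := by exact_mod_cast this
    linarith
  · by_cases h1 : ∀ y ∈ J, G.Adj x y → y = z1
    · have hz1' := mem_filter.1 hz1
      have h2 : dg G U x ≤ dg G U z1 := exch hJ hxU hxJ hz1'.1 h1
      have h3 : J.filter (G.Adj x) = {z1} := by
        ext y
        rw [mem_filter, mem_singleton]
        constructor
        · rintro ⟨a, b⟩; exact h1 y a b
        · rintro rfl; exact hz1'
      rw [h3, sum_singleton]
      have h4 : 2 * ((dg G U z1 : ℤ) - m) ≤ psi G U D m z1 := le_max_left _ _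
      have h5 : (dg G U x : ℤ) ≤ dg G U z1 := by exact_mod_cast h2
      linarith
    · push Not at h1
      obtain ⟨z2, hz2, hadj, hne⟩ := h1
      have hsub : ({z1, z2} : Finset V) ⊆ J.filter (G.Adj x) := by
        intro y hy
        rw [mem_insert, mem_singleton] at hy
        rcases hy with rfl | rfl
        · exact hz1
        · exact mem_filter.2 ⟨hz2, hadj⟩
      have h2 : ∑ z ∈ ({z1, z2} : Finset V), psi G U D m z ≤
          ∑ z ∈ J.filter (G.Adj x), psi G U D m z := by
        apply sum_le_sum_of_subset_of_nonneg hsub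
        intro i hi _
        exact hpsi0' i (mem_filter.1 hi).1
      rw [sum_pair (Ne.symm hne)] at h2
      have h3 := hpsi0 z1
      have h4 := hpsi0 z2
      linarith

/-- per-vertex estimate in J -/
lemma psi_bound {D m : ℕ} {z : V} (h1 : m ≤ dg G U z) (h2 : dg G U z ≤ D) :
    (dg G U z : ℤ) * psi G U D m z + D * m ≤ (2 * D - m) * dg G U z := by
  have h1' : (m : ℤ) ≤ dg G U z := by exact_mod_cast h1
  have h2' : (dg G U z : ℤ) ≤ D := by exact_mod_cast h2
  have h0 : (0 : ℤ) ≤ m := by positivity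
  unfold psi
  rcases max_cases (2 * ((dg G U z : ℤ) - m)) ((D : ℤ) - m) with ⟨h, _⟩ | ⟨h, _⟩
  · rw [h]
    have : 0 ≤ ((D : ℤ) - dg G U z) * (2 * dg G U z - m) :=
      mul_nonneg (by linarith) (by linarith)
    nlinarith
  · rw [h]
    have : 0 ≤ (D : ℤ) * (dg G U z - m) :=
      mul_nonneg (by linarith) (by linarith)
    nlinarith

lemma key1 (hJ : MaxInd G p U J) {D m : ℕ} (hD : ∀ v ∈ U, dg G U v ≤ D)
    (hm' : ∃ z ∈ J, dg G U z = m) :
    2 * ∑ x ∈ U \ J, (dg G U x : ℤ) ≤ 2 * m * (U \ J).card +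
      ∑ z ∈ J, (dg G U z : ℤ) * psi G U D m z := by
  have h1 : ∑ x ∈ U \ J, 2 * (dg G U x : ℤ) ≤
      ∑ x ∈ U \ J, (2 * (m : ℤ) + ∑ z ∈ J.filter (G.Adj x), psi G U D m z) :=
    sum_le_sum fun x hx => charge hJ hD hm' hx
  rw [← mul_sum, sum_add_distrib, sum_weight_comm] at h1
  have h2 : ∑ z ∈ J, (dg G (U \ J) z : ℤ) * psi G U D m z =
      ∑ z ∈ J, (dg G U z : ℤ) * psi G U D m z := by
    refine sum_congr rfl fun z hz => ?_
    rw [dg_sdiff hJ.sub z, dg_self_ind hJ.ind hz, add_zero]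
  rw [h2] at h1
  simp only [sum_const, nsmul_eq_mul] at h1
  linarith

lemma key2 (hJ : MaxInd G p U J) {D m : ℕ} (hD : ∀ v ∈ U, dg G U v ≤ D)
    (hm : ∀ z ∈ J, m ≤ dg G U z) :
    ∑ z ∈ J, (dg G U z : ℤ) * psi G U D m z + D * m * p ≤
      (2 * D - m) * ∑ z ∈ J, (dg G U z : ℤ) := by
  have h1 : ∑ z ∈ J, ((dg G U z : ℤ) * psi G U D m z + D * m) ≤
      ∑ z ∈ J, (2 * (D : ℤ) - m) * dg G U z :=
    sum_le_sum fun z hz => psi_bound (hm z hz) (hD z (hJ.sub hz))
  have h2 : ∑ z ∈ J, (2 * (D : ℤ) - m) * dg G U z = (2 * (D : ℤ) - m) * ∑ z ∈ J, (dg G U z : ℤ) := by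
    rw [mul_sum]
  rw [sum_add_distrib, h2] at h1
  simp only [sum_const, nsmul_eq_mul, hJ.card] at h1
  linarith

lemma E2_eq (hJ : MaxInd G p U J) :
    (E2 G U : ℤ) = ∑ x ∈ U \ J, (dg G U x : ℤ) + ∑ z ∈ J, (dg G U z : ℤ) := by
  unfold E2
  rw [← sum_sdiff hJ.sub]
  push_cast
  rfl

/-- the main inequality: `2 E ≤ 2 m (s-1) + (2D+2-m) W` with `D = 2k+2`,
`|U| + 1 = (k+2) p + s`. -/
lemma main_ineq (hJ : MaxInd G p U J) {k s m : ℕ}
    (hD : ∀ v ∈ U, dg G U v ≤ 2 * k + 2)
    (hm : ∀ z ∈ J, m ≤ dg G U z) (hm' : ∃ z ∈ J, dg G U z = m)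
    (hU : U.card + 1 = (k + 2) * p + s) :
    2 * (E2 G U : ℤ) ≤ 2 * m * ((s : ℤ) - 1) +
      (2 * (2 * k + 2) + 2 - m) * ∑ z ∈ J, (dg G U z : ℤ) := by
  have h1 := key1 hJ hD hm'
  have h2 := key2 hJ hD hm
  have h3 := E2_eq hJ
  have h4 : ((U \ J).card : ℤ) = ((k : ℤ) + 1) * p + s - 1 := by
    have h5 : (U \ J).card + p = U.card := by
      rw [← hJ.card]; exact card_sdiff_add_card_eq_card hJ.sub
    have h6 : ((U \ J).card : ℤ) + p = U.card := by exact_mod_cast h5
    have h7 : (U.card : ℤ) + 1 = ((k : ℤ) + 2) * p + s := by exact_mod_cast hU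
    linarith
  rw [h4] at h1
  push_cast at h1 h2
  nlinarith

end exchange

lemma exists_min_dg {U J : Finset V} (hne : J.Nonempty) :
    ∃ m, (∀ z ∈ J, m ≤ dg G U z) ∧ ∃ z ∈ J, dg G U z = m := by
  obtain ⟨z, hz, hmin⟩ := exists_min_image J (dg G U) hne
  exact ⟨dg G U z, hmin, z, hz, rfl⟩

/-- existence of an independent `p`-set -/
lemma exists_ind_card {k p s : ℕ} {U : Finset V}
    (hU : U.card + 1 = (k + 1) * p + s)
    (hE : E2 G U < 2 * (2 * k + 1) * s ∨ (1 ≤ k ∧ E2 G U ≤ 2 * (2 * k + 1) * s)) :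
    ∃ J ⊆ U, Ind G J ∧ J.card = p := by
  obtain ⟨J, hJ, hi, hb⟩ := exists_ind (G := G) k U
  have hp : p ≤ J.card := by
    by_contra hlt
    have hlt' : (J.card : ℤ) + 1 ≤ p := by exact_mod_cast (by omega : J.card + 1 ≤ p)
    have h7 : (U.card : ℤ) + 1 = ((k : ℤ) + 1) * p + s := by exact_mod_cast hU
    have hk : (0 : ℤ) ≤ k := by positivity
    have h8 : (2 * ((k : ℤ) + 1) * (2 * k + 1)) * (J.card + 1) ≤
        (2 * ((k : ℤ) + 1) * (2 * k + 1)) * p :=
      mul_le_mul_of_nonneg_left hlt' (by positivity)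
    rcases hE with hE | ⟨hk1, hE⟩
    · have hE' : (E2 G U : ℤ) < 2 * (2 * k + 1) * s := by exact_mod_cast hE
      nlinarith
    · have hE' : (E2 G U : ℤ) ≤ 2 * (2 * k + 1) * s := by exact_mod_cast hE
      have hk1' : (1 : ℤ) ≤ k := by exact_mod_cast hk1
      nlinarith
  obtain ⟨J', hJ', hc⟩ := exists_subset_card_eq hp
  exact ⟨J', hJ'.trans hJ, hi.mono hJ', hc⟩

/-- **Claim A**: a graph on `(k+1)p + s - 1` vertices with fewer than `(2k+1)s` edges contains
`k+1` disjoint independent `p`-sets. -/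
theorem claimA {p : ℕ} (hp : 1 ≤ p) (k : ℕ) : ∀ (s : ℕ) (U : Finset V),
    U.card + 1 = (k + 1) * p + s → E2 G U < 2 * (2 * k + 1) * s → Pack G p (k + 1) U := by
  induction k with
  | zero =>
    intro s U hU hE
    obtain ⟨J, hJ, hi, hc⟩ := exists_ind_card hU (Or.inl hE)
    exact ⟨J, hJ, hc, hi, trivial⟩
  | succ k ihk =>
    intro s
    induction s with
    | zero => intro U hU hE; simp at hE
    | succ s ihs =>
      intro U hU hE
      by_cases hbig : ∃ v ∈ U, 2 * (k + 1) + 1 ≤ dg G U v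
      · obtain ⟨v, hv, hdv⟩ := hbig
        have h1 := E2_erase (G := G) hv
        have h2 : (U.erase v).card + 1 = U.card := card_erase_add_one hv
        have h3 : Pack G p (k + 1 + 1) (U.erase v) := by
          apply ihs
          · omega
          · have : 2 * (2 * (k + 1) + 1) * (s + 1) = 2 * (2 * (k + 1) + 1) * s
                + 2 * (2 * (k + 1) + 1) := by ring
            omega
        exact h3.mono (erase_subset _ _)
      · push Not at hbig
        have hD : ∀ v ∈ U, dg G U v ≤ 2 * k + 2 := fun v hv => by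
          have := hbig v hv; omega
        obtain ⟨J0, hJ0, hi0, hc0⟩ := exists_ind_card hU (Or.inl hE)
        obtain ⟨J, hJ⟩ := exists_maxInd hJ0 hi0 hc0
        have hne : J.Nonempty := by
          rw [← card_pos, hJ.card]; omega
        obtain ⟨m, hm, hm'⟩ := exists_min_dg (G := G) (U := U) hne
        have hmain := main_ineq hJ hD hm hm' (by rw [hU])
        have hsd := E2_sdiff hJ.sub hJ.ind
        refine ⟨J, hJ.sub, hJ.card, hJ.ind, ihk (s + 1) (U \ J) ?_ ?_⟩
        · have h5 : (U \ J).card + p = U.card := by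
            rw [← hJ.card]; exact card_sdiff_add_card_eq_card hJ.sub
          have : (k + 1 + 1) * p + (s + 1) = (k + 1) * p + (s + 1) + p := by ring
          omega
        · by_contra hcon
          push Not at hcon
          have hcon' : 2 * (2 * (k : ℤ) + 1) * (s + 1) ≤ E2 G (U \ J) := by exact_mod_cast hcon
          have hsd' : (E2 G (U \ J) : ℤ) + 2 * ∑ z ∈ J, (dg G U z : ℤ) = E2 G U := by
            exact_mod_cast hsd
          have hE' : (E2 G U : ℤ) + 1 ≤ 2 * (2 * (k + 1) + 1) * (s + 1) := by exact_mod_cast hE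
          have hmD : (m : ℤ) ≤ 2 * k + 2 := by
            obtain ⟨z, hz, hzm⟩ := hm'
            have := hD z (hJ.sub hz)
            rw [hzm] at this
            exact_mod_cast this
          have hm0 : (0 : ℤ) ≤ m := by positivity
          have hk0 : (0 : ℤ) ≤ k := by positivity
          have hs0 : (0 : ℤ) ≤ s := by positivity
          set W := ∑ z ∈ J, (dg G U z : ℤ) with hW
          set E : ℤ := (E2 G U : ℤ) with hEdef
          have h1 : 2 * W ≤ E - 2 * (2 * k + 1) * (s + 1) := by linarith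
          have h2 : (2 * (2 * (k : ℤ) + 2) + 2 - m) * (2 * W) ≤
              (2 * (2 * k + 2) + 2 - m) * (E - 2 * (2 * k + 1) * (s + 1)) :=
            mul_le_mul_of_nonneg_left h1 (by linarith)
          push_cast at hmain
          have h3 : (2 * (2 * (k : ℤ) + 2) - 2 - m) * (E - 2 * (2 * (k + 1) + 1) * (s + 1)) ≤
              (2 * (2 * (k : ℤ) + 2) - 2 - m) * (-1) :=
            mul_le_mul_of_nonneg_left (by linarith) (by linarith)
          nlinarith

/-- structure of a maximum-weight independent set in the extremal case; here the number of classes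
is `k+2`, `D = 2k+2`. -/
theorem tight {p k s : ℕ} (hp : 1 ≤ p) {U J : Finset V}
    (hU : U.card + 1 = (k + 2) * p + s)
    (hD : ∀ v ∈ U, dg G U v ≤ 2 * k + 2)
    (hE : E2 G U ≤ 2 * (2 * k + 3) * s)
    (hno : ¬ Pack G p (k + 2) U) (hJ : MaxInd G p U J) :
    E2 G U = 2 * (2 * k + 3) * s ∧ (∑ z ∈ J, dg G U z = 2 * s) ∧
    (∀ z ∈ J, dg G U z = 0 ∨ dg G U z = 2 * k + 2) ∧
    (∀ x ∈ U \ J, dg G U x = (2 * k + 2) * dg G J x) := by
  have hE1 : E2 G U = 2 * (2 * k + 3) * s := by
    refine le_antisymm hE ?_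
    by_contra hlt
    push Not at hlt
    exact hno (claimA hp (k + 1) s U (by rw [hU]) hlt)
  have hUJ : (U \ J).card + p = U.card := by
    rw [← hJ.card]; exact card_sdiff_add_card_eq_card hJ.sub
  have hEJ : 2 * (2 * k + 1) * s ≤ E2 G (U \ J) := by
    by_contra hlt
    push Not at hlt
    refine hno ⟨J, hJ.sub, hJ.card, hJ.ind, claimA hp k s (U \ J) ?_ hlt⟩
    have : (k + 2) * p + s = (k + 1) * p + s + p := by ring
    omega
  have hne : J.Nonempty := by
    rw [← card_pos, hJ.card]; omega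
  obtain ⟨m, hm, hm'⟩ := exists_min_dg (G := G) (U := U) hne
  have hmain := main_ineq hJ hD hm hm' hU
  have hsd := E2_sdiff hJ.sub hJ.ind
  have hk1 := key1 hJ hD hm'
  have hk2 := key2 hJ hD hm
  have hEeq := E2_eq hJ
  have hEJ' : 2 * (2 * (k : ℤ) + 1) * s ≤ E2 G (U \ J) := by exact_mod_cast hEJ
  have hsd' : (E2 G (U \ J) : ℤ) + 2 * ∑ z ∈ J, (dg G U z : ℤ) = E2 G U := by
    exact_mod_cast hsd
  have hE' : (E2 G U : ℤ) = 2 * (2 * k + 3) * s := by exact_mod_cast hE1
  have hmD : (m : ℤ) ≤ 2 * k + 2 := by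
    obtain ⟨z, hz, hzm⟩ := hm'
    have := hD z (hJ.sub hz)
    rw [hzm] at this
    exact_mod_cast this
  have hm0 : (0 : ℤ) ≤ m := by positivity
  have hk0 : (0 : ℤ) ≤ k := by positivity
  have hs0 : (0 : ℤ) ≤ s := by positivity
  have hWle : ∑ z ∈ J, (dg G U z : ℤ) ≤ 2 * s := by nlinarith
  have hmz : m = 0 := by
    have h2 : (2 * (2 * (k : ℤ) + 2) + 2 - m) * (∑ z ∈ J, (dg G U z : ℤ)) ≤
        (2 * (2 * k + 2) + 2 - m) * (2 * s) :=
      mul_le_mul_of_nonneg_left hWle (by linarith)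
    have : (m : ℤ) ≤ 0 := by nlinarith
    have : (m : ℤ) = 0 := le_antisymm this hm0
    exact_mod_cast this
  subst hmz
  have hWeq : ∑ z ∈ J, (dg G U z : ℤ) = 2 * s := by
    refine le_antisymm hWle ?_
    push_cast at hmain
    have h1 : (2 * (k : ℤ) + 3) * (2 * s) ≤ (2 * k + 3) * ∑ z ∈ J, (dg G U z : ℤ) := by
      nlinarith
    exact le_of_mul_le_mul_left h1 (by linarith)
  have hWnat : ∑ z ∈ J, dg G U z = 2 * s := by exact_mod_cast hWeq
  -- equality in key1 and key2
  have hout : ∑ x ∈ U \ J, (dg G U x : ℤ) = (2 * k + 2) * (2 * s) := by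
    rw [hE'] at hEeq
    linarith
  rw [hWeq] at hk2
  rw [hout] at hk1
  push_cast at hk1 hk2
  have hmid : ∑ z ∈ J, (dg G U z : ℤ) * psi G U (2 * k + 2) 0 z = 2 * ((2 * k + 2) * (2 * s)) := by
    have h1 : 2 * ((2 * (k : ℤ) + 2) * (2 * s)) ≤
      ∑ z ∈ J, (dg G U z : ℤ) * psi G U (2 * k + 2) 0 z := by linarith
    have h2 : ∑ z ∈ J, (dg G U z : ℤ) * psi G U (2 * k + 2) 0 z ≤
      2 * ((2 * k + 2) * (2 * s)) := by linarith
    exact le_antisymm h2 h1
  -- pointwise equality in J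
  have hzJ : ∀ z ∈ J, (dg G U z : ℤ) * psi G U (2 * k + 2) 0 z = 2 * (2 * k + 2) * dg G U z := by
    have hle : ∀ z ∈ J, (dg G U z : ℤ) * psi G U (2 * k + 2) 0 z ≤
        2 * (2 * k + 2) * dg G U z := by
      intro z hz
      have := psi_bound (G := G) (U := U) (D := 2 * k + 2) (m := 0) (z := z) (Nat.zero_le _)
        (hD z (hJ.sub hz))
      push_cast at this
      linarith
    apply (sum_eq_sum_iff_of_le hle).1
    rw [hmid, ← mul_sum, hWeq]
    ring
  have hz2 : ∀ z ∈ J, dg G U z = 0 ∨ dg G U z = 2 * k + 2 := by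
    intro z hz
    rcases Nat.eq_zero_or_pos (dg G U z) with h0 | hpos
    · exact Or.inl h0
    · right
      have h1 := hzJ z hz
      have hpos' : (0 : ℤ) < dg G U z := by exact_mod_cast hpos
      have h2 : psi G U (2 * k + 2) 0 z = 2 * (2 * k + 2) := by
        have : (dg G U z : ℤ) * psi G U (2 * k + 2) 0 z = dg G U z * (2 * (2 * k + 2)) := by
          linarith
        exact mul_left_cancel₀ (ne_of_gt hpos') this
      unfold psi at h2
      have h3 : (dg G U z : ℤ) = 2 * k + 2 := by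
        rcases max_cases (2 * ((dg G U z : ℤ) - 0)) ((2 * (k : ℤ) + 2) - 0) with ⟨h, _⟩ | ⟨h, _⟩
        · rw [h] at h2; linarith
        · rw [h] at h2; linarith
      exact_mod_cast h3
  refine ⟨hE1, hWnat, hz2, ?_⟩
  -- pointwise equality outside J
  have hxe : ∀ x ∈ U \ J, 2 * (dg G U x : ℤ) =
      ∑ z ∈ J.filter (G.Adj x), psi G U (2 * k + 2) 0 z := by
    have hle : ∀ x ∈ U \ J, 2 * (dg G U x : ℤ) ≤
      ∑ z ∈ J.filter (G.Adj x), psi G U (2 * k + 2) 0 z := by
      intro x hx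
      have := charge hJ hD hm' hx
      push_cast at this
      linarith
    apply (sum_eq_sum_iff_of_le hle).1
    rw [sum_weight_comm, ← mul_sum, hout]
    rw [← hmid]
    refine sum_congr rfl fun z hz => ?_
    rw [dg_sdiff hJ.sub z, dg_self_ind hJ.ind hz, add_zero]
  intro x hx
  have h1 := hxe x hx
  have h2 : ∑ z ∈ J.filter (G.Adj x), psi G U (2 * k + 2) 0 z =
      ∑ z ∈ J.filter (G.Adj x), (2 * (2 * (k : ℤ) + 2)) := by
    refine sum_congr rfl fun z hz => ?_
    rw [mem_filter] at hz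
    have hpos : 0 < dg G U z := by
      unfold dg
      rw [card_pos]
      exact ⟨x, mem_filter.2 ⟨(mem_sdiff.1 hx).1, hz.2.symm⟩⟩
    have hd : dg G U z = 2 * k + 2 := by
      rcases hz2 z hz.1 with h | h
      · omega
      · exact h
    unfold psi
    rw [hd]
    push_cast
    rw [max_eq_left (by linarith)]
    ring
  rw [h2, sum_const, nsmul_eq_mul] at h1
  have h3 : (dg G U x : ℤ) = (2 * k + 2) * dg G J x := by
    unfold dg at h1 ⊢
    linarith
  exact_mod_cast h3

lemma mem_filter_dg_one {J : Finset V} {x z w : V} (h1 : dg G J x = 1) (hz : z ∈ J)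
    (hxz : G.Adj x z) (hw : w ∈ J) (hxw : G.Adj x w) : w = z := by
  unfold dg at h1
  rw [card_eq_one] at h1
  obtain ⟨a, ha⟩ := h1
  have h2 : z ∈ J.filter (G.Adj x) := mem_filter.2 ⟨hz, hxz⟩
  have h3 : w ∈ J.filter (G.Adj x) := mem_filter.2 ⟨hw, hxw⟩
  rw [ha, mem_singleton] at h2 h3
  rw [h2, h3]

/-- a neighbour of `z ∈ J` -/
lemma nbr_facts {p k s : ℕ} (hp : 1 ≤ p) {U J : Finset V}
    (hU : U.card + 1 = (k + 2) * p + s)
    (hD : ∀ v ∈ U, dg G U v ≤ 2 * k + 2)
    (hE : E2 G U ≤ 2 * (2 * k + 3) * s)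
    (hno : ¬ Pack G p (k + 2) U) (hJ : MaxInd G p U J) {z x : V} (hz : z ∈ J) (hx : x ∈ U)
    (hzx : G.Adj z x) : x ∉ J ∧ dg G J x = 1 ∧ dg G U x = 2 * k + 2 ∧ dg G U z = 2 * k + 2 := by
  obtain ⟨_, _, h3, h4⟩ := tight hp hU hD hE hno hJ
  have hxJ : x ∉ J := fun h => hJ.ind z hz x h hzx
  have hx1 := h4 x (mem_sdiff.2 ⟨hx, hxJ⟩)
  have hpos : 0 < dg G J x := by
    unfold dg; rw [card_pos]; exact ⟨z, mem_filter.2 ⟨hz, hzx.symm⟩⟩
  have hle := hD x hx
  have h5 : dg G J x = 1 := by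
    by_contra hne
    have : 2 ≤ dg G J x := by omega
    have : (2 * k + 2) * 2 ≤ (2 * k + 2) * dg G J x := Nat.mul_le_mul_left _ this
    omega
  refine ⟨hxJ, h5, ?_, ?_⟩
  · rw [hx1, h5, mul_one]
  · rcases h3 z hz with h | h
    · exfalso
      have : 0 < dg G U z := by
        unfold dg; rw [card_pos]; exact ⟨x, mem_filter.2 ⟨hx, hzx⟩⟩
      omega
    · exact h

lemma nbr_clique {p k s : ℕ} (hp : 1 ≤ p) {U J : Finset V}
    (hU : U.card + 1 = (k + 2) * p + s)
    (hD : ∀ v ∈ U, dg G U v ≤ 2 * k + 2)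
    (hE : E2 G U ≤ 2 * (2 * k + 3) * s)
    (hno : ¬ Pack G p (k + 2) U) (hJ : MaxInd G p U J) {z x y : V} (hz : z ∈ J)
    (hx : x ∈ U) (hy : y ∈ U) (hzx : G.Adj z x) (hzy : G.Adj z y) (hxy : x ≠ y) :
    G.Adj x y := by
  obtain ⟨hxJ, hx1, hxd, hzd⟩ := nbr_facts hp hU hD hE hno hJ hz hx hzx
  obtain ⟨hyJ, hy1, hyd, _⟩ := nbr_facts hp hU hD hE hno hJ hz hy hzy
  have hJ' : MaxInd G p U (insert x (J.erase z)) :=
    exch_max hJ hx hxJ hz (fun w hw hadj => mem_filter_dg_one hx1 hz hzx.symm hw hadj)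
      (by rw [hxd, hzd])
  obtain ⟨_, _, _, h4⟩ := tight hp hU hD hE hno hJ'
  have hyJ' : y ∉ insert x (J.erase z) := by
    rw [mem_insert]
    rintro (h | h)
    · exact hxy h.symm
    · exact hyJ (mem_of_mem_erase h)
  have h5 := h4 y (mem_sdiff.2 ⟨hy, hyJ'⟩)
  rw [hyd] at h5
  have hpos : 0 < dg G (insert x (J.erase z)) y := by
    by_contra h
    have : dg G (insert x (J.erase z)) y = 0 := by omega
    rw [this] at h5
    omega
  unfold dg at hpos
  rw [card_pos] at hpos
  obtain ⟨w, hw⟩ := hpos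
  rw [mem_filter, mem_insert] at hw
  rcases hw with ⟨rfl | hw, hadj⟩
  · exact hadj.symm
  · exfalso
    rw [mem_erase] at hw
    exact hw.1 (mem_filter_dg_one hy1 hz hzy.symm hw.2 hadj)

/-- closed neighbourhood inside `U` -/
def cn (G : SimpleGraph V) [DecidableRel G.Adj] (U : Finset V) (z : V) : Finset V :=
  insert z (U.filter (G.Adj z))

lemma card_cn (U : Finset V) (z : V) : (cn G U z).card = dg G U z + 1 := by
  unfold cn dg
  rw [card_insert_of_notMem]
  simp

/-- the extremal structure -/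
theorem extremal {p k s : ℕ} (hp : 1 ≤ p) {U : Finset V}
    (hU : U.card + 1 = (k + 2) * p + s)
    (hD : ∀ v ∈ U, dg G U v ≤ 2 * k + 2)
    (hE : E2 G U ≤ 2 * (2 * k + 3) * s)
    (hno : ¬ Pack G p (k + 2) U) :
    E2 G U = 2 * (2 * k + 3) * s ∧ ∃ T ⊆ U, T.card * (k + 1) = s ∧
      (∀ z ∈ T, (cn G U z).card = 2 * k + 3) ∧
      (∀ z ∈ T, ∀ z' ∈ T, z ≠ z' → Disjoint (cn G U z) (cn G U z')) ∧
      (∀ v ∈ U, ∀ w ∈ U, G.Adj v w ↔ v ≠ w ∧ ∃ z ∈ T, v ∈ cn G U z ∧ w ∈ cn G U z) := by
  have hJ0 : ∃ J ⊆ U, Ind G J ∧ J.card = p :=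
    exists_ind_card (k := k + 1) (s := s) (by rw [hU])
      (Or.inr ⟨by omega, by
        have : 2 * (2 * (k + 1) + 1) * s = 2 * (2 * k + 3) * s := by ring
        rw [this]; exact hE⟩)
  obtain ⟨J0, hJ0, hi0, hc0⟩ := hJ0
  obtain ⟨J, hJ⟩ := exists_maxInd hJ0 hi0 hc0
  obtain ⟨h1, h2, h3, h4⟩ := tight hp hU hD hE hno hJ
  refine ⟨h1, J.filter (fun z => dg G U z ≠ 0), (filter_subset _ _).trans hJ.sub, ?_, ?_, ?_, ?_⟩
  · have h5 : ∑ z ∈ J, dg G U z = ∑ z ∈ J.filter (fun z => dg G U z ≠ 0), (2 * k + 2) := by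
      rw [sum_filter]
      refine sum_congr rfl fun z hz => ?_
      split_ifs with h
      · rcases h3 z hz with h' | h'
        · exact absurd h' h
        · exact h'
      · push Not at h; exact h
    rw [h2, sum_const, smul_eq_mul] at h5
    have : 2 * s = 2 * ((J.filter (fun z => dg G U z ≠ 0)).card * (k + 1)) := by
      rw [h5]; ring
    omega
  · intro z hz
    rw [mem_filter] at hz
    rw [card_cn]
    rcases h3 z hz.1 with h | h
    · exact absurd h hz.2
    · omega
  · intro z hz z' hz' hne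
    rw [mem_filter] at hz hz'
    rw [disjoint_left]
    intro v hv hv'
    unfold cn at hv hv'
    rw [mem_insert, mem_filter] at hv hv'
    rcases hv with rfl | ⟨hvU, hv⟩
    · rcases hv' with rfl | ⟨_, hv'⟩
      · exact hne rfl
      · exact hJ.ind z' hz'.1 v hz.1 hv'
    · rcases hv' with rfl | ⟨_, hv'⟩
      · exact hJ.ind z hz.1 v hz'.1 hv
      · obtain ⟨_, hx1, _, _⟩ := nbr_facts hp hU hD hE hno hJ hz.1 hvU hv
        exact hne (mem_filter_dg_one hx1 hz'.1 hv'.symm hz.1 hv.symm)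
  · intro v hv w hw
    constructor
    · intro hadj
      refine ⟨hadj.ne, ?_⟩
      -- v lies in the closed neighbourhood of some z
      have hvpos : 0 < dg G U v := by
        unfold dg; rw [card_pos]; exact ⟨w, mem_filter.2 ⟨hw, hadj⟩⟩
      obtain ⟨z, hz, hvz⟩ : ∃ z ∈ J.filter (fun z => dg G U z ≠ 0), v ∈ cn G U z := by
        by_cases hvJ : v ∈ J
        · exact ⟨v, mem_filter.2 ⟨hvJ, by omega⟩, mem_insert_self _ _⟩
        · have h5 := h4 v (mem_sdiff.2 ⟨hv, hvJ⟩)
          have h6 : 0 < dg G J v := by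
            by_contra h
            have : dg G J v = 0 := by omega
            rw [this] at h5
            omega
          unfold dg at h6
          rw [card_pos] at h6
          obtain ⟨z, hz⟩ := h6
          rw [mem_filter] at hz
          refine ⟨z, mem_filter.2 ⟨hz.1, ?_⟩, mem_insert_of_mem (mem_filter.2 ⟨hv, hz.2.symm⟩)⟩
          have : 0 < dg G U z := by
            unfold dg; rw [card_pos]; exact ⟨v, mem_filter.2 ⟨hv, hz.2.symm⟩⟩
          omega
      refine ⟨z, hz, hvz, ?_⟩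
      -- the neighbourhood of v is contained in cn z
      have hzJ := (mem_filter.1 hz).1
      unfold cn at hvz
      rw [mem_insert, mem_filter] at hvz
      rcases hvz with rfl | ⟨_, hzv⟩
      · exact mem_insert_of_mem (mem_filter.2 ⟨hw, hadj⟩)
      · obtain ⟨_, _, hvd, hzd⟩ := nbr_facts hp hU hD hE hno hJ hzJ hv hzv
        have hsub : (cn G U z).erase v ⊆ U.filter (G.Adj v) := by
          intro u hu
          rw [mem_erase] at hu
          unfold cn at hu
          rw [mem_insert, mem_filter] at hu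
          rw [mem_filter]
          rcases hu with ⟨hne, rfl | ⟨huU, hu⟩⟩
          · exact ⟨hJ.sub hzJ, hzv.symm⟩
          · exact ⟨huU, nbr_clique hp hU hD hE hno hJ hzJ hv huU hzv hu (Ne.symm hne)⟩
        have hcard : (U.filter (G.Adj v)).card ≤ ((cn G U z).erase v).card := by
          rw [card_erase_of_mem, card_cn, hzd]
          · change dg G U v ≤ _
            rw [hvd]
            omega
          · unfold cn
            exact mem_insert_of_mem (mem_filter.2 ⟨hv, hzv⟩)
        have heq := eq_of_subset_of_card_le hsub hcard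
        have : w ∈ (cn G U z).erase v := by
          rw [heq]; exact mem_filter.2 ⟨hw, hadj⟩
        exact mem_of_mem_erase this
    · rintro ⟨hne, z, hz, hvz, hwz⟩
      have hzJ := (mem_filter.1 hz).1
      unfold cn at hvz hwz
      rw [mem_insert, mem_filter] at hvz hwz
      rcases hvz with rfl | ⟨_, hzv⟩
      · rcases hwz with rfl | ⟨_, hzw⟩
        · exact absurd rfl hne
        · exact hzw
      · rcases hwz with rfl | ⟨_, hzw⟩
        · exact hzv.symm
        · exact nbr_clique hp hU hD hE hno hJ hzJ hv hw hzv hzw hne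

/-- from `Pack` to a family indexed by `Fin k` -/
lemma Pack.exists_family {p k : ℕ} {U : Finset V} (h : Pack G p k U) :
    ∃ W : Fin k → Finset V, (∀ i, W i ⊆ U ∧ (W i).card = p ∧ Ind G (W i)) ∧
      ∀ i j, i ≠ j → Disjoint (W i) (W j) := by
  induction k generalizing U with
  | zero => exact ⟨fun _ => ∅, fun i => i.elim0, fun i => i.elim0⟩
  | succ k ih =>
    obtain ⟨J, hJ, hc, hi, hr⟩ := h
    obtain ⟨W, hW, hdis⟩ := ih hr
    refine ⟨Fin.cons J W, ?_, ?_⟩
    · intro i
      refine Fin.cases ?_ (fun j => ?_) i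
      · simpa using ⟨hJ, hc, hi⟩
      · simp only [Fin.cons_succ]
        exact ⟨(hW j).1.trans sdiff_subset, (hW j).2⟩
    · have key : ∀ j, Disjoint J (W j) := by
        intro j
        rw [disjoint_left]
        intro v hv hv'
        exact (mem_sdiff.1 ((hW j).1 hv')).2 hv
      intro i j
      refine Fin.cases ?_ (fun i' => ?_) i
      · refine Fin.cases ?_ (fun j' => ?_) j
        · intro h; exact absurd rfl h
        · intro _; simpa using key j'
      · refine Fin.cases ?_ (fun j' => ?_) j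
        · intro _; simpa using (key i').symm
        · intro h
          simp only [Fin.cons_succ]
          exact hdis i' j' (fun h' => h (by rw [h']))

end Pool.Agent.H43.IndepSets
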